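import Pool.Agent.W475.BH.Stm

/-!
# BH-CA4: closeness in mean near a good point
-/

set_option autoImplicit false

open MeasureTheory Set

namespace Pool.Agent.W18.BH.CA4

open Pool.Agent.W475.BH

theorem ball_norm_sq {ρ : ℝ} (hρ : 0 < ρ) :
    ∫ z in Metric.closedBall (0 : ℂ) ρ, ‖z‖ ^ 2 = Real.pi * ρ ^ 4 / 2 := by
  have h1 : ∫ z in Metric.closedBall (0 : ℂ) ρ, ‖z‖ ^ 2 =
      ∫ z : ℂ, (Iic ρ).indicator (fun y : ℝ => y ^ 2) ‖z‖ := by
    rw [← integral_indicator Metric.isClosed_closedBall.measurableSet]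
    congr 1
    ext z
    by_cases hz : ‖z‖ ≤ ρ
    · rw [indicator_of_mem, indicator_of_mem]
      · exact hz
      · simpa using hz
    · rw [indicator_of_notMem, indicator_of_notMem]
      · exact hz
      · simpa using hz
  rw [h1, integral_fun_norm_addHaar]
  rw [Complex.finrank_real_complex]
  have h2 : (volume : Measure ℂ).real (Metric.ball 0 1) = Real.pi := by
    rw [measureReal_def, Complex.volume_ball]
    simp
  rw [h2]
  have h3 : ∫ y in Ioi (0 : ℝ), y ^ (2 - 1) • (Iic ρ).indicator (fun y : ℝ => y ^ 2) y =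
      ρ ^ 4 / 4 := by
    have h4 : ∀ y : ℝ, y ^ (2 - 1) • (Iic ρ).indicator (fun y : ℝ => y ^ 2) y =
        (Iic ρ).indicator (fun y : ℝ => y ^ 3) y := by
      intro y
      by_cases hy : y ∈ Iic ρ
      · rw [indicator_of_mem hy, indicator_of_mem hy, smul_eq_mul]
        ring
      · rw [indicator_of_notMem hy, indicator_of_notMem hy, smul_zero]
    simp_rw [h4]
    rw [setIntegral_indicator measurableSet_Iic, Ioi_inter_Iic,
      ← intervalIntegral.integral_of_le hρ.le, integral_pow]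
    norm_num
  rw [h3]
  simp only [nsmul_eq_mul, smul_eq_mul]
  push_cast
  ring

theorem ball_mp (e : ℂ ≃ₗᵢ[ℝ] ℂ) (ρ : ℝ) (F : ℂ → ℝ) :
    ∫ z in Metric.closedBall (0 : ℂ) ρ, F (e z) = ∫ z in Metric.closedBall (0 : ℂ) ρ, F z := by
  have h1 := (e.measurePreserving).setIntegral_preimage_emb
    e.toHomeomorph.measurableEmbedding F (Metric.closedBall (0 : ℂ) ρ)
  have h2 : (e ⁻¹' Metric.closedBall (0 : ℂ) ρ) = Metric.closedBall (0 : ℂ) ρ := by
    ext z
    simp
  rw [h2] at h1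
  exact h1

theorem int_cont (F : ℂ → ℝ) (hF : Continuous F) (c : ℂ) (ρ : ℝ) :
    IntegrableOn F (Metric.closedBall c ρ) :=
  hF.continuousOn.integrableOn_compact (isCompact_closedBall c ρ)

/-- rotation by a quarter turn -/
noncomputable def rot : ℂ ≃ₗᵢ[ℝ] ℂ := rotation (Circle.exp (Real.pi / 2))

theorem rot_re (z : ℂ) : (rot z).re = -z.im := by
  unfold rot
  rw [rotation_apply, Circle.coe_exp]
  have h : Complex.exp (((Real.pi / 2 : ℝ) : ℂ) * Complex.I) = Complex.I := by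
    push_cast
    exact Complex.exp_pi_div_two_mul_I
  rw [h]
  simp

theorem ball_re_sq {ρ : ℝ} (hρ : 0 < ρ) :
    ∫ z in Metric.closedBall (0 : ℂ) ρ, z.re ^ 2 = Real.pi * ρ ^ 4 / 4 := by
  have h1 := ball_mp rot ρ (fun z => z.re ^ 2)
  simp only [rot_re, neg_sq] at h1
  have h2 := ball_norm_sq hρ
  have h3 : ∫ z in Metric.closedBall (0 : ℂ) ρ, ‖z‖ ^ 2 =
      (∫ z in Metric.closedBall (0 : ℂ) ρ, z.re ^ 2) + ∫ z in Metric.closedBall (0 : ℂ) ρ, z.im ^ 2 := by
    rw [← integral_add]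
    · congr 1
      ext z
      rw [Complex.sq_norm, Complex.normSq_apply]
      ring
    · exact int_cont _ (by fun_prop) 0 ρ
    · exact int_cont _ (by fun_prop) 0 ρ
  linarith

theorem ball_re {ρ : ℝ} : ∫ z in Metric.closedBall (0 : ℂ) ρ, z.re = 0 := by
  have h1 := ball_mp (LinearIsometryEquiv.neg ℝ) ρ (fun z => z.re)
  simp only [LinearIsometryEquiv.coe_neg, Complex.neg_re] at h1
  rw [integral_neg] at h1
  linarith

theorem ball_shift (F : ℂ → ℝ) (c : ℂ) (ρ : ℝ) :
    ∫ z in Metric.closedBall c ρ, F z = ∫ z in Metric.closedBall (0 : ℂ) ρ, F (z + c) := by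
  have h1 := (measurePreserving_add_right (volume : Measure ℂ) c).setIntegral_preimage_emb
    (Homeomorph.addRight c).measurableEmbedding F (Metric.closedBall c ρ)
  have h2 : ((fun x => x + c) ⁻¹' Metric.closedBall c ρ) = Metric.closedBall (0 : ℂ) ρ := by
    ext z
    simp [dist_eq_norm]
  rw [h2] at h1
  exact h1.symm

/-- the slope of the profile -/
noncomputable def sl (κ x : ℝ) : ℝ := if |x| ≤ κ then x / (2 * κ) else if 0 < x then 1 / 2 else -(1 / 2)

theorem Vh_le {κ : ℝ} (hκ : 0 < κ) (x y : ℝ) :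
    Vh κ x ≤ Vh κ y + sl κ y * (x - y) + (x - y) ^ 2 / (4 * κ) := by
  have key : ∀ A B : ℝ, 4 * κ * A ≤ 4 * κ * B → A ≤ B := fun A B h =>
    le_of_mul_le_mul_left h (by positivity)
  apply key
  have e1 : 4 * κ * ((x - y) ^ 2 / (4 * κ)) = (x - y) ^ 2 := by field_simp
  have e2 : ∀ x : ℝ, 4 * κ * (x ^ 2 / (4 * κ)) = x ^ 2 := fun x => by field_simp
  have e3 : ∀ x : ℝ, 4 * κ * (|x| / 2 - κ / 4) = 2 * κ * |x| - κ ^ 2 := fun x => by ring
  have hV : ∀ x : ℝ, 4 * κ * Vh κ x = if |x| ≤ κ then x ^ 2 else 2 * κ * |x| - κ ^ 2 := by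
    intro x
    unfold Vh
    split_ifs
    · exact e2 x
    · exact e3 x
  have hs : 4 * κ * (sl κ y * (x - y)) = (if |y| ≤ κ then 2 * y else if 0 < y then 2 * κ else -(2 * κ)) * (x - y) := by
    unfold sl
    split_ifs
    · field_simp
      ring
    · ring
    · ring
  rw [mul_add, mul_add, e1, hV, hV, hs]
  have hx : |x| ≤ κ ↔ -κ ≤ x ∧ x ≤ κ := abs_le
  by_cases h1 : |x| ≤ κ <;> by_cases h2 : |y| ≤ κ
  · rw [if_pos h1, if_pos h2, if_pos h2]
    nlinarith
  · rw [if_pos h1, if_neg h2, if_neg h2]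
    rw [abs_le] at h1
    push Not at h2
    by_cases h3 : 0 < y
    · rw [if_pos h3]
      rw [abs_of_pos h3] at h2 ⊢
      nlinarith
    · rw [if_neg h3]
      rw [abs_of_nonpos (not_lt.1 h3)] at h2 ⊢
      nlinarith
  · rw [if_neg h1, if_pos h2, if_pos h2]
    nlinarith [sq_nonneg (|x| - κ), sq_abs x]
  · rw [if_neg h1, if_neg h2, if_neg h2]
    push Not at h1 h2
    by_cases h3 : 0 < y
    · rw [if_pos h3]
      rw [abs_of_pos h3] at h2 ⊢
      by_cases h4 : 0 < x
      · rw [abs_of_pos h4] at h1 ⊢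
        nlinarith [sq_nonneg (x - y)]
      · rw [abs_of_nonpos (not_lt.1 h4)] at h1 ⊢
        have h5 : κ - x ≤ y - x := by linarith
        have h6 : (κ - x) ^ 2 ≤ (y - x) ^ 2 := by
          apply pow_le_pow_left₀ _ h5
          linarith [not_lt.1 h4]
        nlinarith [sq_nonneg (κ + x)]
    · rw [if_neg h3]
      rw [abs_of_nonpos (not_lt.1 h3)] at h2 ⊢
      by_cases h4 : 0 < x
      · rw [abs_of_pos h4] at h1 ⊢
        have h5 : κ + x ≤ x - y := by linarith
        have h6 : (κ + x) ^ 2 ≤ (x - y) ^ 2 := by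
          apply pow_le_pow_left₀ _ h5
          linarith
        nlinarith [sq_nonneg (κ - x)]
      · rw [abs_of_nonpos (not_lt.1 h4)] at h1 ⊢
        nlinarith [sq_nonneg (x - y)]

theorem Vh_cont {κ : ℝ} (hκ : 0 < κ) : Continuous (Vh κ) := by
  unfold Vh
  apply Continuous.if_le
  · fun_prop
  · fun_prop
  · fun_prop
  · fun_prop
  · intro x hx
    rw [← sq_abs x, hx]
    field_simp
    ring

theorem vol_ball (c : ℂ) {ρ : ℝ} (hρ : 0 < ρ) :
    (volume : Measure ℂ).real (Metric.closedBall c ρ) = Real.pi * ρ ^ 2 := by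
  rw [measureReal_def, Complex.volume_closedBall]
  simp [hρ.le]
  ring

theorem int_Vh {κ : ℝ} (hκ : 0 < κ) (c : ℂ) {ρ : ℝ} (hρ : 0 < ρ) :
    ∫ z in Metric.closedBall c ρ, Vh κ z.re ≤ Real.pi * ρ ^ 2 * (Vh κ c.re + ρ ^ 2 / (16 * κ)) := by
  rw [ball_shift]
  have h1 : ∫ z in Metric.closedBall (0 : ℂ) ρ, Vh κ (z + c).re ≤
      ∫ z in Metric.closedBall (0 : ℂ) ρ, (Vh κ c.re + sl κ c.re * z.re + z.re ^ 2 / (4 * κ)) := by
    apply integral_mono
    · exact int_cont _ ((Vh_cont hκ).comp (by fun_prop)) 0 ρ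
    · exact int_cont _ (by fun_prop) 0 ρ
    · intro z
      have := Vh_le hκ (z + c).re c.re
      simp only [Complex.add_re, add_sub_cancel_right] at this ⊢
      exact this
  refine h1.trans (le_of_eq ?_)
  rw [integral_add, integral_add, integral_const_mul, ball_re, integral_div, ball_re_sq hρ,
    setIntegral_const, vol_ball _ hρ, smul_eq_mul]
  · field_simp
    ring
  · exact int_cont _ (by fun_prop) 0 ρ
  · exact int_cont _ (by fun_prop) 0 ρ
  · exact int_cont _ (by fun_prop) 0 ρ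
  · exact int_cont _ (by fun_prop) 0 ρ

theorem zeros_null {f : ℂ → ℂ} (hf : Differentiable ℂ f) (h : ∃ z, f z ≠ 0) :
    ∀ᵐ z : ℂ, f z ≠ 0 := by
  obtain ⟨z0, hz0⟩ := h
  have h1 : f ⁻¹' {0}ᶜ ∈ Filter.codiscrete ℂ :=
    (hf.differentiableOn.analyticOnNhd isOpen_univ).preimage_zero_mem_codiscrete (x := z0) hz0
  have h2 := ae_restrict_le_codiscreteWithin (μ := (volume : Measure ℂ)) MeasurableSet.univ h1
  rw [Measure.restrict_univ] at h2
  filter_upwards [h2] with z hz
  exact hz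

theorem main (h1 : S_CA1) (h2 : S_CA2) : S_CA4 := by
  intro κ M δ ρ f c hκ hM hδ hρ hf hup hlo
  have hfc : f c ≠ 0 := by
    intro h
    rw [h, norm_zero] at hlo
    exact absurd hlo (not_le.2 (Real.exp_pos _))
  have hex : ∃ z, f z ≠ 0 := ⟨c, hfc⟩
  have hLI := h1 f hf hex
  have hgi : IntegrableOn (fun z => Real.log ‖f z‖) (Metric.closedBall c ρ) :=
    hLI.integrableOn_isCompact (isCompact_closedBall c ρ)
  have hui : IntegrableOn (fun z : ℂ => Vh κ z.re) (Metric.closedBall c ρ) :=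
    int_cont _ ((Vh_cont hκ).comp (by fun_prop)) c ρ
  have hci : IntegrableOn (fun z : ℂ => 2 * M * δ) (Metric.closedBall c ρ) :=
    int_cont _ (by fun_prop) c ρ
  have hnull := zeros_null hf hex
  have h3 : ∫ z in Metric.closedBall c ρ, |Real.log ‖f z‖ - M * Vh κ z.re| ≤
      ∫ z in Metric.closedBall c ρ, (M * Vh κ z.re - Real.log ‖f z‖ + 2 * M * δ) := by
    apply integral_mono_ae
    · exact (hgi.sub (hui.const_mul M)).abs
    · exact ((hui.const_mul M).sub hgi).add hci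
    · rw [Filter.EventuallyLE, ae_restrict_iff' Metric.isClosed_closedBall.measurableSet]
      filter_upwards [hnull] with z hz hzb
      have h4 : ‖z - c‖ ≤ ρ := by
        rw [← dist_eq_norm]
        exact hzb
      have h5 := hup z h4
      have h6 : Real.log ‖f z‖ ≤ M * (Vh κ z.re + δ) := by
        rw [← Real.log_exp (M * (Vh κ z.re + δ))]
        exact Real.log_le_log (norm_pos_iff.2 hz) h5
      have h7 : 0 < M * δ := by positivity
      rw [abs_le]
      constructor <;> nlinarith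
  refine h3.trans ?_
  have e1 : ∫ z in Metric.closedBall c ρ, (M * Vh κ z.re - Real.log ‖f z‖ + 2 * M * δ) =
      (∫ z in Metric.closedBall c ρ, (M * Vh κ z.re - Real.log ‖f z‖)) +
        ∫ z in Metric.closedBall c ρ, 2 * M * δ :=
    integral_add ((hui.const_mul M).sub hgi) hci
  have e2 : ∫ z in Metric.closedBall c ρ, (M * Vh κ z.re - Real.log ‖f z‖) =
      (∫ z in Metric.closedBall c ρ, M * Vh κ z.re) - ∫ z in Metric.closedBall c ρ, Real.log ‖f z‖ :=
    integral_sub (hui.const_mul M) hgi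
  rw [e1, e2, integral_const_mul, setIntegral_const, vol_ball _ hρ, smul_eq_mul]
  have h4 := h2 f hf c ρ hρ hfc
  have h5 : M * (Vh κ c.re - δ) ≤ Real.log ‖f c‖ := by
    rw [← Real.log_exp (M * (Vh κ c.re - δ))]
    exact Real.log_le_log (Real.exp_pos _) hlo
  have h6 := int_Vh hκ c hρ
  have h7 : 0 < Real.pi * ρ ^ 2 := by positivity
  have h8 := mul_le_mul_of_nonneg_left h5 h7.le
  have h9 := mul_le_mul_of_nonneg_left h6 hM.le
  nlinarith

end Pool.Agent.W18.BH.CA4
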